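import Mathlib
import Pool.Agent.H348R6.GV3

/-!
# Fine normal ultrafilters over `P_κ(κ⁺)` and the Galvin property

Let `κ` be uncountable, `|X| = κ⁺`, and let `U` be a fine normal ultrafilter over `P_κ(X)`. Then
`Gal(U, κ, κ⁺⁺)` fails, and if `2 ^ κ ≤ κ⁺⁺` then `Gal(U, κ, 2 ^ κ⁺)` fails, whatever the value
of `2 ^ κ⁺` is.

Idea: if `h i`, `i < θ`, are pairwise eventually different functions from `κ⁺` to `κ⁺`, then the
sets `A i` of all `x` closed under `h i` belong to `U`, and an `x` which contains a sufficiently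
large ordinal can belong to at most `|x| < κ` of any `κ` given `A i`. There are always `κ⁺⁺` such
functions. If `2 ^ κ ≤ κ⁺⁺`, there are `2 ^ κ⁺` of them: code the initial segments of `E ⊆ κ⁺` by
elements of `κ⁺⁺`, let `γ E < κ⁺⁺` be a bound of the codes, fix injections `e γ : γ → κ⁺`, and send
`a < κ⁺` to the pair of `g (γ E) a` and of `e (γ E) (code of E ∩ a)`, where `g ξ`, `ξ < κ⁺⁺`, are
pairwise eventually different.
-/

set_option autoImplicit false

namespace Pool.Agent.Results.MP_a3089e_lc.NormalNonGalvin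

open Cardinal Set Pool.Agent.H348R6.GV

universe u

/-- `U` is a fine normal ultrafilter over `P_κ(X)`, the set of all subsets of `X` of size less than
`κ`: it is `κ`-complete, it is fine, and every function choosing an element of `x` for `U`-almost
all `x` is constant on a member of `U`. -/
structure FineNormal (κ : Cardinal.{u}) {X : Type u} (U : Ultrafilter {x : Set X // #x < κ}) :
    Prop where
  complete : ∀ S : Set (Set {x : Set X // #x < κ}), #S < κ → (∀ s ∈ S, s ∈ U) → ⋂₀ S ∈ U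
  fine : ∀ a : X, {x : {x : Set X // #x < κ} | a ∈ x.1} ∈ U
  normal : ∀ f : {x : Set X // #x < κ} → X, {x : {x : Set X // #x < κ} | f x ∈ x.1} ∈ U →
    ∃ a : X, {x : {x : Set X // #x < κ} | f x = a} ∈ U

/-- The Galvin property `Gal(F, μ, θ)`: every set of `θ` many (distinct) members of `F` includes
`μ` many whose intersection is in `F`. -/
def Gal {P : Type u} (F : Filter P) (μ θ : Cardinal.{u}) : Prop :=
  ∀ S : Set (Set P), (∀ s ∈ S, s ∈ F) → #S = θ → ∃ T ⊆ S, #T = μ ∧ ⋂₀ T ∈ F

/-- If `2 ^ κ ≤ κ⁺⁺` there are `2 ^ κ⁺` eventually different functions on `κ⁺`. -/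
theorem family_sets' {κ : Cardinal.{u}} (hκ : ℵ₀ < κ)
    (hc2 : (2 : Cardinal.{u}) ^ κ ≤ Order.succ (Order.succ κ)) :
    ∃ h : Set (Order.succ κ).ord.ToType → (Order.succ κ).ord.ToType →
      (Order.succ κ).ord.ToType, ∀ i j, i ≠ j → ∃ b, ∀ a, b ≤ a → h i a ≠ h j a := by
  classical
  have hreg : (Order.succ κ).IsRegular := isRegular_succ hκ.le
  have hreg2 : (Order.succ (Order.succ κ)).IsRegular := isRegular_succ hreg.aleph0_le
  obtain ⟨g, hg⟩ := family_scale hκ
  have hW : #((Order.succ κ).ord.ToType) = Order.succ κ := by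
    rw [Cardinal.mk_toType, card_ord]
  have hV : #((Order.succ (Order.succ κ)).ord.ToType) = Order.succ (Order.succ κ) := by
    rw [Cardinal.mk_toType, card_ord]
  have hc : ∀ a : (Order.succ κ).ord.ToType,
      ∃ c : Set (Iic a) → (Order.succ (Order.succ κ)).ord.ToType, Function.Injective c := by
    intro a
    have h1 : #(Set (Iic a)) ≤ #((Order.succ (Order.succ κ)).ord.ToType) := by
      rw [mk_set, hV]
      exact (power_le_power_left two_ne_zero
        (Order.lt_succ_iff.1 (mk_Iic_lt hreg a))).trans hc2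
    obtain ⟨c⟩ := h1
    exact ⟨c, c.injective⟩
  choose c hc using hc
  have hγ : ∀ E : Set (Order.succ κ).ord.ToType,
      ∃ γ, ∀ a : (Order.succ κ).ord.ToType, c a {b | b.1 ∈ E} < γ := by
    intro E
    exact bdd_of_lt hreg2 (fun a => c a {b | b.1 ∈ E}) (by rw [hW]; exact Order.lt_succ _)
  choose γ hγ using hγ
  have he : ∀ δ : (Order.succ (Order.succ κ)).ord.ToType,
      ∃ e : Iio δ → (Order.succ κ).ord.ToType, Function.Injective e := by
    intro δ
    have h1 : #(Iio δ) ≤ #((Order.succ κ).ord.ToType) := by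
      rw [hW]
      exact Order.lt_succ_iff.1 (mk_Iio_toType_ord_lt δ)
    obtain ⟨e⟩ := h1
    exact ⟨e, e.injective⟩
  choose e he using he
  have hp : ∃ p : (Order.succ κ).ord.ToType × (Order.succ κ).ord.ToType →
      (Order.succ κ).ord.ToType, Function.Injective p := by
    have h1 : #((Order.succ κ).ord.ToType × (Order.succ κ).ord.ToType) ≤
        #((Order.succ κ).ord.ToType) := by
      rw [mk_prod, lift_id, hW, mul_eq_self hreg.aleph0_le]
    obtain ⟨p⟩ := h1
    exact ⟨p, p.injective⟩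
  obtain ⟨p, hp⟩ := hp
  have hcongr : ∀ (δ δ' : (Order.succ (Order.succ κ)).ord.ToType) (hδ : δ = δ')
      (u u' : (Order.succ (Order.succ κ)).ord.ToType) (hu : u < δ) (hu' : u' < δ'),
      e δ ⟨u, hu⟩ = e δ' ⟨u', hu'⟩ → u = u' := by
    intro δ δ' hδ u u' hu hu' h
    subst hδ
    exact congrArg Subtype.val (he δ h)
  refine ⟨fun E a => p (g (γ E) a, e (γ E) ⟨c a {b | b.1 ∈ E}, hγ E a⟩), fun E E' hne => ?_⟩
  by_cases hEE : γ E = γ E'
  · have : ∃ b, ¬ (b ∈ E ↔ b ∈ E') := by
      by_contra hcon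
      push Not at hcon
      exact hne (Set.ext hcon)
    obtain ⟨b, hb⟩ := this
    refine ⟨b, fun a hba heq => hb ?_⟩
    have h1 := (Prod.mk.injEq _ _ _ _ ▸ hp heq).2
    have h2 := hc a (hcongr _ _ hEE _ _ _ _ h1)
    have h3 := Set.ext_iff.1 h2 ⟨b, hba⟩
    simpa using h3
  · obtain ⟨b, hb⟩ := hg _ _ hEE
    refine ⟨b, fun a hba heq => hb a hba ?_⟩
    exact (Prod.mk.injEq _ _ _ _ ▸ hp heq).1

theorem result (κ : Cardinal.{u}) (hκ : ℵ₀ < κ) (X : Type u) (hX : #X = Order.succ κ)
    (U : Ultrafilter {x : Set X // #x < κ}) (hU : FineNormal κ U) :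
    ¬ Gal (U : Filter {x : Set X // #x < κ}) κ (Order.succ (Order.succ κ)) ∧
    ((2 : Cardinal.{u}) ^ κ ≤ Order.succ (Order.succ κ) →
      ¬ Gal (U : Filter {x : Set X // #x < κ}) κ ((2 : Cardinal.{u}) ^ Order.succ κ)) := by
  have hW : #((Order.succ κ).ord.ToType) = Order.succ κ := by
    rw [Cardinal.mk_toType, card_ord]
  have hV : #((Order.succ (Order.succ κ)).ord.ToType) = Order.succ (Order.succ κ) := by
    rw [Cardinal.mk_toType, card_ord]
  constructor
  · intro hG
    obtain ⟨h, hh⟩ := family_scale hκ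
    obtain ⟨S, hS1, hS2, hS3⟩ := not_gal_of_family hκ hX U hU.fine hU.normal
      (by rw [hV]; exact (Order.lt_succ κ).trans (Order.lt_succ _)) h hh
    rw [hV] at hS2
    obtain ⟨T, hT1, hT2, hT3⟩ := hG S hS1 hS2
    exact hS3 T hT1 hT2 hT3
  · intro hc2 hG
    obtain ⟨h, hh⟩ := family_sets' hκ hc2
    obtain ⟨S, hS1, hS2, hS3⟩ := not_gal_of_family hκ hX U hU.fine hU.normal
      (by rw [mk_set, hW]; exact (Order.lt_succ κ).trans (cantor _)) h hh
    rw [mk_set, hW] at hS2
    obtain ⟨T, hT1, hT2, hT3⟩ := hG S hS1 hS2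
    exact hS3 T hT1 hT2 hT3

end Pool.Agent.Results.MP_a3089e_lc.NormalNonGalvin
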